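import Pool.Agent.Helper71.HV.Sub
import Pool.Agent.Helper53.LN.VIR
import Pool.Agent.Helper53.PN.MTH

/-! # HV: the part NE of the row V2R -/

set_option autoImplicit false

namespace Pool.Agent.Helper39.HV

open MeasureTheory Filter Pool.Agent.Helper95 Pool.Agent.Helper95.PW Pool.Agent.Helper95.LN
  Pool.Agent.Helper95.CF Pool.Agent.Helper95.HV Pool.Agent.Helper53.LN
open Pool.Agent.Helper82.PN (pgb_tri)

theorem ne_dot {v ξ : R3} {a : ℝ} (ha : 0 ≤ a) (h : ∀ m, |v m| ≤ a) :
    |∑ m, v m * ξ m| ≤ 3 * a * nr ξ := by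
  refine (Finset.abs_sum_le_sum_abs _ _).trans ?_
  have h1 : ∀ m ∈ (Finset.univ : Finset (Fin 3)), |v m * ξ m| ≤ a * nr ξ := by
    intro m _
    rw [abs_mul]
    exact mul_le_mul (h m) (VIR_comp ξ m) (abs_nonneg _) ha
  refine (Finset.sum_le_sum h1).trans (le_of_eq ?_)
  simp
  ring

theorem ne_tq {v w ξ : R3} {a b : ℝ} (ha : 0 ≤ a) (hb : 0 ≤ b) (hv : ∀ m, |v m| ≤ a)
    (hw : ∀ m, |w m| ≤ b) (hξ : 0 < nr ξ) : |Tq ξ v w| ≤ 30 * (a * b) / nr ξ ^ 3 := by
  have h1 := ne_dot (ξ := ξ) ha hv
  have h2 := ne_dot (ξ := ξ) hb hw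
  have h3 : |∑ m, v m * w m| ≤ 3 * (a * b) := by
    refine (Finset.abs_sum_le_sum_abs _ _).trans ?_
    have h1 : ∀ m ∈ (Finset.univ : Finset (Fin 3)), |v m * w m| ≤ a * b := by
      intro m _
      rw [abs_mul]
      exact mul_le_mul (hv m) (hw m) (abs_nonneg _) ha
    refine (Finset.sum_le_sum h1).trans (le_of_eq ?_)
    simp
  unfold Tq
  refine (abs_sub _ _).trans ?_
  rw [abs_div, abs_div, abs_mul, abs_mul, abs_of_pos (pow_pos hξ 5), abs_of_pos (pow_pos hξ 3),
    abs_of_pos (by norm_num : (0 : ℝ) < 3)]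
  have h4 : 3 * |∑ m, v m * ξ m| * |∑ m, w m * ξ m| / nr ξ ^ 5 ≤
      3 * (3 * a * nr ξ) * (3 * b * nr ξ) / nr ξ ^ 5 := by
    refine div_le_div_of_nonneg_right ?_ (by positivity)
    exact mul_le_mul (by linarith) h2 (abs_nonneg _) (by positivity)
  have h5 : |∑ m, v m * w m| / nr ξ ^ 3 ≤ 3 * (a * b) / nr ξ ^ 3 :=
    div_le_div_of_nonneg_right h3 (by positivity)
  have h6 : 3 * (3 * a * nr ξ) * (3 * b * nr ξ) / nr ξ ^ 5 = 27 * (a * b) / nr ξ ^ 3 := by
    field_simp
    ring
  have h7 : 27 * (a * b) / nr ξ ^ 3 + 3 * (a * b) / nr ξ ^ 3 = 30 * (a * b) / nr ξ ^ 3 := by ring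
  linarith

/-- the unit vector -/
noncomputable def em (m : Fin 3) : R3 := fun i => if i = m then 1 else 0

theorem em_le (m i : Fin 3) : |em m i| ≤ 1 := by
  unfold em
  split_ifs <;> simp

theorem ne_tr {ξ : R3} (hξ : 0 < nr ξ) : ∑ m, Tq ξ (em m) (em m) = 0 := by
  have h := VIR_nrsq ξ
  unfold Tq em
  simp [Fin.sum_univ_three]
  field_simp
  nlinarith

theorem ne_gv {m : Fin 3} {L : ℝ} (hcut : ∀ y, nr y ≤ L → gm m L y = y m) {y : R3}
    (hy : nr y < L) : gv (gm m L) y = em m := by
  funext i
  exact MTH_pd m L hcut y hy i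

theorem ne_gq {m : Fin 3} {L : ℝ} (hcut : ∀ y, nr y ≤ L → gm m L y = y m) {y : R3}
    (hy : nr y < L) (i : Fin 3) : gq (gm m L) y i = 0 := by
  unfold gq
  refine Finset.sum_eq_zero fun l _ => ?_
  have h1 : pd i (gm m L) =ᶠ[nhds y] fun _ => if i = m then 1 else 0 := by
    filter_upwards [(isOpen_lt innm_nr_cont continuous_const).mem_nhds hy] with w hw
    exact MTH_pd m L hcut w hw i
  have h2 : pd l (pd i (gm m L)) y = 0 := by
    have : pd l (pd i (gm m L)) y = fderiv ℝ (pd i (gm m L)) y (Pi.single l 1) := rfl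
    rw [this, h1.fderiv_eq]
    simp
  rw [h2, zero_mul]

theorem NE (h1 : ST_FLD) (h2 : ST_CUT) : Pool.Agent.Helper71.HV.ST_NE := by
  intro d hd hd1
  obtain ⟨K1, hK1, HF⟩ := h1
  obtain ⟨K, hK, HC, _⟩ := h2
  have hK0 : 0 < K := by linarith
  have hK10 : 0 < K1 := by linarith
  refine ⟨2 * (46080 * K1 / d ^ 3 + 720 * K1) + 414 * K ^ 2, by positivity, ?_⟩
  intro z L Λ n M X Z y hDat hL hΛ hXL hΛs hy
  have hS := hDat.sep
  have hZ0 : ∀ j, 0 ≤ Z j := hDat.nuc.1
  have hz : 0 ≤ z := zero_le_one.trans hDat.z1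
  have hL0 : 0 < L := by linarith
  have hr : ∀ j, 0 < nr (y - X j) := fun j => lt_of_le_of_ne (VIR_nr0 _) (Ne.symm (hy j))
  have hpot : 0 ≤ pot X Z y := by
    unfold pot
    exact Finset.sum_nonneg fun j _ => div_nonneg (hZ0 j) (VIR_nr0 _)
  have F := fun m => HF M X d (d / 8) (d / 8) m hd hS (by positivity) le_rfl (by linarith)
  by_cases hyL : nr y < L
  · have hgv : ∀ m, gv (gm m L) y = em m := fun m => ne_gv (HC m L hL0).2.1 hyL
    have hgq : ∀ m i, gq (gm m L) y i = 0 := fun m i => ne_gq (HC m L hL0).2.1 hyL i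
    have e1 : ∀ j, ∑ m, Z j * ((∑ i, gq (gm m L) y i * (y i - X j i)) / nr (y - X j) ^ 3 -
        Tq (y - X j) (gv (gm m L) y) (gv (gm m L) y) +
        2 * Tq (y - X j) (gv (gm m L) y) (gv (gN X m (d / 8)) y)) =
        Z j * (2 * ∑ m, Tq (y - X j) (em m) (gv (gN X m (d / 8)) y)) := by
      intro j
      rw [← Finset.mul_sum, Finset.sum_add_distrib, Finset.sum_sub_distrib, ← Finset.mul_sum]
      simp only [hgv, hgq, zero_mul, Finset.sum_const_zero, zero_div]
      rw [ne_tr (hr j), sub_zero, zero_add]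
    rw [Finset.sum_comm, Finset.sum_congr rfl fun j _ => e1 j]
    have hfin : 2 * (z * (46080 * K1 / d ^ 3 + 720 * K1 * Λ)) ≤
        (2 * (46080 * K1 / d ^ 3 + 720 * K1) + 414 * K ^ 2) * (z * (1 + Λ)) +
        (2 * (46080 * K1 / d ^ 3 + 720 * K1) + 414 * K ^ 2) / L * pot X Z y := by
      have t1 : 0 ≤ (2 * (46080 * K1 / d ^ 3 + 720 * K1) + 414 * K ^ 2) / L * pot X Z y := by
        positivity
      have t2 : (2 * (46080 * K1 / d ^ 3 + 720 * K1) + 414 * K ^ 2) * (z * (1 + Λ)) =
          2 * (z * (46080 * K1 / d ^ 3 + 720 * K1 * Λ)) +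
          (2 * (46080 * K1 / d ^ 3) * (z * Λ) + 2 * (720 * K1) * z +
            414 * K ^ 2 * (z * (1 + Λ))) := by ring
      have t3 : 0 ≤ 2 * (46080 * K1 / d ^ 3) * (z * Λ) + 2 * (720 * K1) * z +
            414 * K ^ 2 * (z * (1 + Λ)) := by positivity
      linarith
    refine le_trans ?_ hfin
    by_cases hnear : ∃ i, nr (y - X i) ≤ d / 4
    · obtain ⟨i, hi⟩ := hnear
      have hj : ∀ j, Z j * (2 * ∑ m, Tq (y - X j) (em m) (gv (gN X m (d / 8)) y)) ≤
          z * (2 * ((if j = i then 46080 * K1 / d ^ 3 else 0) +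
            720 * K1 * (if j = i then 0 else 1 / nr (X i - X j) ^ 3))) := by
        intro j
        have hb : ∀ m, Tq (y - X j) (em m) (gv (gN X m (d / 8)) y) ≤
            30 * (1 * K1) / nr (y - X j) ^ 3 := fun m =>
          (le_abs_self _).trans (ne_tq zero_le_one hK10.le (em_le m) (fun i => (F m).1.d1 i y)
            (hr j))
        have hb3 : ∑ m, Tq (y - X j) (em m) (gv (gN X m (d / 8)) y) ≤
            90 * K1 / nr (y - X j) ^ 3 := by
          refine (Finset.sum_le_sum fun m _ => hb m).trans (le_of_eq ?_)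
          simp
          ring
        have hbnd : ∑ m, Tq (y - X j) (em m) (gv (gN X m (d / 8)) y) ≤
            (if j = i then 46080 * K1 / d ^ 3 else 0) +
            720 * K1 * (if j = i then 0 else 1 / nr (X i - X j) ^ 3) := by
          by_cases hji : j = i
          · rw [if_pos hji, if_pos hji, mul_zero, add_zero, hji]
            rw [hji] at hb3
            by_cases h8 : nr (y - X i) < d / 8
            · have : ∑ m, Tq (y - X i) (em m) (gv (gN X m (d / 8)) y) =
                  ∑ m, Tq (y - X i) (em m) (em m) := by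
                refine Finset.sum_congr rfl fun m _ => ?_
                have : gv (gN X m (d / 8)) y = em m := by
                  funext l
                  exact (F m).2.2.1 i y h8 l
                rw [this]
              rw [this, ne_tr (hr i)]
              positivity
            · push Not at h8
              refine hb3.trans ?_
              have h9 : (d / 8) ^ 3 ≤ nr (y - X i) ^ 3 := pow_le_pow_left₀ (by positivity) h8 3
              have h10 : 90 * K1 / nr (y - X i) ^ 3 ≤ 90 * K1 / (d / 8) ^ 3 :=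
                div_le_div_of_nonneg_left (by positivity) (by positivity) h9
              refine h10.trans (le_of_eq ?_)
              field_simp
              ring
          · rw [if_neg hji, if_neg hji, zero_add]
            refine hb3.trans ?_
            have t1 := hS i j (Ne.symm hji)
            have t2 := pgb_tri (X i) (X j) y
            have t3 : nr (X i - X j) / 2 ≤ nr (y - X j) := by linarith
            have t4 : 0 < nr (X i - X j) := by linarith
            have t5 : (nr (X i - X j) / 2) ^ 3 ≤ nr (y - X j) ^ 3 :=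
              pow_le_pow_left₀ (by positivity) t3 3
            have t6 : 90 * K1 / nr (y - X j) ^ 3 ≤ 90 * K1 / (nr (X i - X j) / 2) ^ 3 :=
              div_le_div_of_nonneg_left (by positivity) (by positivity) t5
            refine t6.trans (le_of_eq ?_)
            field_simp
            ring
        have hB0 : 0 ≤ (if j = i then 46080 * K1 / d ^ 3 else 0) +
            720 * K1 * (if j = i then 0 else 1 / nr (X i - X j) ^ 3) := by
          have q1 : 0 ≤ (if j = i then 46080 * K1 / d ^ 3 else 0) := by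
            split_ifs <;> positivity
          have q2 : 0 ≤ (if j = i then 0 else 1 / nr (X i - X j) ^ 3) := by
            have := VIR_nr0 (X i - X j)
            split_ifs <;> positivity
          positivity
        exact (mul_le_mul_of_nonneg_left (mul_le_mul_of_nonneg_left hbnd (by norm_num))
          (hZ0 j)).trans (mul_le_mul_of_nonneg_right (hDat.le j) (by positivity))
      refine (Finset.sum_le_sum fun j _ => hj j).trans ?_
      rw [← Finset.mul_sum, ← Finset.mul_sum, Finset.sum_add_distrib, ← Finset.mul_sum,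
        Finset.sum_ite_eq' Finset.univ i (fun _ => 46080 * K1 / d ^ 3),
        if_pos (Finset.mem_univ i)]
      have t1 : 720 * K1 * ∑ j, (if j = i then 0 else 1 / nr (X i - X j) ^ 3) ≤
          720 * K1 * Λ := mul_le_mul_of_nonneg_left (hΛs i) (by positivity)
      have t2 := mul_le_mul_of_nonneg_left t1 hz
      linarith
    · push Not at hnear
      have h0 : ∀ m, gv (gN X m (d / 8)) y = 0 := by
        intro m
        funext l
        exact (F m).2.2.2.1 y (fun j => by
          have := hnear j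
          linarith) l
      have h00 : ∀ j, Z j * (2 * ∑ m, Tq (y - X j) (em m) (gv (gN X m (d / 8)) y)) = 0 := by
        intro j
        simp only [h0]
        simp [Tq]
      rw [Finset.sum_congr rfl fun j _ => h00 j, Finset.sum_const_zero]
      positivity
  · push Not at hyL
    have hrL : ∀ j, L / 2 ≤ nr (y - X j) := by
      intro j
      have t1 := pgb_tri y 0 (X j)
      rw [sub_zero, sub_zero, VIR_sym (X j) y] at t1
      have := hXL j
      have := VIR_nr0 (X j)
      linarith
    have h0 : ∀ m, gv (gN X m (d / 8)) y = 0 := by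
      intro m
      funext l
      exact (F m).2.2.2.1 y (fun j => by
        have := hrL j
        linarith) l
    have hg1 : ∀ m i, |gv (gm m L) y i| ≤ K := fun m i => (HC m L hL0).1.d1 i y
    have hg2 : ∀ m i, |gq (gm m L) y i| ≤ 3 * (K / L * K) := by
      intro m i
      unfold gq
      refine (Finset.abs_sum_le_sum_abs _ _).trans ?_
      have h1 : ∀ l ∈ (Finset.univ : Finset (Fin 3)),
          |pd l (pd i (gm m L)) y * pd l (gm m L) y| ≤ K / L * K := by
        intro l _
        rw [abs_mul]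
        exact mul_le_mul ((HC m L hL0).1.d2 l i y) ((HC m L hL0).1.d1 l y) (abs_nonneg _)
          (by positivity)
      refine (Finset.sum_le_sum h1).trans (le_of_eq ?_)
      simp
    have hj : ∀ m j, Z j * ((∑ i, gq (gm m L) y i * (y i - X j i)) / nr (y - X j) ^ 3 -
        Tq (y - X j) (gv (gm m L) y) (gv (gm m L) y) +
        2 * Tq (y - X j) (gv (gm m L) y) (gv (gN X m (d / 8)) y)) ≤
        138 * K ^ 2 / L * (Z j / nr (y - X j)) := by
      intro m j
      have hrj := hr j
      have hrLj := hrL j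
      have t0 : Tq (y - X j) (gv (gm m L) y) (gv (gN X m (d / 8)) y) = 0 := by
        rw [h0]
        simp [Tq]
      have t1 : -Tq (y - X j) (gv (gm m L) y) (gv (gm m L) y) ≤
          30 * (K * K) / nr (y - X j) ^ 3 :=
        (neg_le_abs _).trans (ne_tq hK0.le hK0.le (hg1 m) (hg1 m) hrj)
      have t2 : (∑ i, gq (gm m L) y i * (y i - X j i)) ≤
          3 * (3 * (K / L * K)) * nr (y - X j) :=
        (le_abs_self _).trans (ne_dot (v := gq (gm m L) y) (ξ := y - X j) (by positivity)
          (hg2 m))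
      have t3 : (∑ i, gq (gm m L) y i * (y i - X j i)) / nr (y - X j) ^ 3 ≤
          3 * (3 * (K / L * K)) * nr (y - X j) / nr (y - X j) ^ 3 :=
        div_le_div_of_nonneg_right t2 (by positivity)
      have t4 : 3 * (3 * (K / L * K)) * nr (y - X j) / nr (y - X j) ^ 3 ≤
          18 * K ^ 2 / L * (1 / nr (y - X j)) := by
        have e : 3 * (3 * (K / L * K)) * nr (y - X j) / nr (y - X j) ^ 3 =
            9 * K ^ 2 / L * (1 / nr (y - X j)) * (1 / nr (y - X j)) := by
          field_simp
          ring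
        have e2 : 1 / nr (y - X j) ≤ 2 := by
          rw [div_le_iff₀ hrj]
          linarith
        rw [e]
        have e3 : 9 * K ^ 2 / L * (1 / nr (y - X j)) * (1 / nr (y - X j)) ≤
            9 * K ^ 2 / L * (1 / nr (y - X j)) * 2 :=
          mul_le_mul_of_nonneg_left e2 (by positivity)
        refine e3.trans (le_of_eq ?_)
        ring
      have t5 : 30 * (K * K) / nr (y - X j) ^ 3 ≤ 120 * K ^ 2 / L * (1 / nr (y - X j)) := by
        have e : 30 * (K * K) / nr (y - X j) ^ 3 =
            30 * K ^ 2 * (1 / nr (y - X j)) * (1 / nr (y - X j) ^ 2) := by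
          field_simp
        have e2 : 1 / nr (y - X j) ^ 2 ≤ 4 / L := by
          have e3 : (L / 2) ^ 2 ≤ nr (y - X j) ^ 2 := pow_le_pow_left₀ (by positivity) hrLj 2
          rw [div_le_div_iff₀ (by positivity) hL0]
          nlinarith
        rw [e]
        have e3 : 30 * K ^ 2 * (1 / nr (y - X j)) * (1 / nr (y - X j) ^ 2) ≤
            30 * K ^ 2 * (1 / nr (y - X j)) * (4 / L) :=
          mul_le_mul_of_nonneg_left e2 (by positivity)
        refine e3.trans (le_of_eq ?_)
        ring
      have t6 : (∑ i, gq (gm m L) y i * (y i - X j i)) / nr (y - X j) ^ 3 -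
          Tq (y - X j) (gv (gm m L) y) (gv (gm m L) y) +
          2 * Tq (y - X j) (gv (gm m L) y) (gv (gN X m (d / 8)) y) ≤
          138 * K ^ 2 / L * (1 / nr (y - X j)) := by
        rw [t0, mul_zero, add_zero]
        have e : 138 * K ^ 2 / L * (1 / nr (y - X j)) = 18 * K ^ 2 / L * (1 / nr (y - X j)) +
            120 * K ^ 2 / L * (1 / nr (y - X j)) := by ring
        rw [e]
        linarith
      refine (mul_le_mul_of_nonneg_left t6 (hZ0 j)).trans (le_of_eq ?_)
      ring
    have hsum : ∑ m : Fin 3, ∑ j, Z j * ((∑ i, gq (gm m L) y i * (y i - X j i)) /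
        nr (y - X j) ^ 3 - Tq (y - X j) (gv (gm m L) y) (gv (gm m L) y) +
        2 * Tq (y - X j) (gv (gm m L) y) (gv (gN X m (d / 8)) y)) ≤
        ∑ _m : Fin 3, ∑ j, 138 * K ^ 2 / L * (Z j / nr (y - X j)) :=
      Finset.sum_le_sum fun m _ => Finset.sum_le_sum fun j _ => hj m j
    refine hsum.trans ?_
    have e : ∑ _m : Fin 3, ∑ j, 138 * K ^ 2 / L * (Z j / nr (y - X j)) =
        414 * K ^ 2 / L * pot X Z y := by
      unfold pot
      rw [← Finset.mul_sum]
      simp
      ring
    rw [e]
    have t1 : 0 ≤ (2 * (46080 * K1 / d ^ 3 + 720 * K1) + 414 * K ^ 2) * (z * (1 + Λ)) := by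
      positivity
    have t2 : (2 * (46080 * K1 / d ^ 3 + 720 * K1) + 414 * K ^ 2) / L * pot X Z y =
        414 * K ^ 2 / L * pot X Z y + 2 * (46080 * K1 / d ^ 3 + 720 * K1) / L * pot X Z y := by
      ring
    have t3 : 0 ≤ 2 * (46080 * K1 / d ^ 3 + 720 * K1) / L * pot X Z y := by positivity
    linarith

end Pool.Agent.Helper39.HV
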