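import Pool.Agent.Helper95.HV.Stmts
import Pool.Agent.Helper53.LN.VIR

/-! # HV: the row VIRZ (after the row VIR of helper53) -/

set_option autoImplicit false

namespace Pool.Agent.Helper39.HV

open MeasureTheory Filter Pool.Agent.Helper95.PW Pool.Agent.Helper95.LN Pool.Agent.Helper95.CF
  Pool.Agent.Helper95.HV Pool.Agent.Helper53.LN

theorem VIRZ (h2 : ST_NBZ) (h3 : ST_FFZ) (h4 : ST_KK) : ST_VIRZ := by
  intro d A hd hd1 hA
  obtain ⟨C2, hC2, k2⟩ := h2 d hd hd1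
  obtain ⟨C3, hC3, k3⟩ := h3 d hd hd1
  have hA0 : (0 : ℝ) ≤ A := by linarith
  obtain ⟨P, hP⟩ : ∃ P : ℝ, P = 1 / 2 * (A + A * (16 / d) * C2 + 3 / 2 * A * (C3 + C2) +
    3 * A) := ⟨_, rfl⟩
  have hP0 : 0 < P := by
    rw [hP]
    positivity
  refine ⟨P, hP0, ?_⟩
  intro z n M X Z g x hDat hg hout hA1 hH hD
  have hS := hDat.sep
  have hZ0 : ∀ j, 0 ≤ Z j := hDat.nuc.1
  have hz : 0 ≤ z := zero_le_one.trans hDat.z1
  have q2 := k2 z n M X Z x hDat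
  obtain ⟨e, he, q3⟩ := k3 z n M X Z x hDat
  obtain ⟨N2, hN2⟩ : ∃ N2 : ℝ, N2 = ∑ k, near2 X d (x k) := ⟨_, rfl⟩
  obtain ⟨N1, hN1⟩ : ∃ N1 : ℝ, N1 = ∑ k, near1 X d (x k) := ⟨_, rfl⟩
  have hN20 : 0 ≤ N2 := by
    rw [hN2]
    refine Finset.sum_nonneg fun k _ => ?_
    unfold near2
    refine Finset.sum_nonneg fun j _ => ?_
    split_ifs <;> positivity
  have hN10 : 0 ≤ N1 := by
    rw [hN1]
    refine Finset.sum_nonneg fun k _ => ?_
    unfold near1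
    refine Finset.sum_nonneg fun j _ => ?_
    split_ifs
    · exact div_nonneg zero_le_one (VIR_nr0 _)
    · exact le_rfl
  have hR : 0 ≤ Rem (d / 8) x := by
    unfold Rem
    refine Finset.sum_nonneg fun k _ => Finset.sum_nonneg fun l _ => ?_
    split_ifs with h
    · have := (h4 (d / 8) (x k - x l) (by positivity)).2.1 (hD.1 k l h.ne)
      linarith
    · exact le_rfl
  have hD0 : 0 ≤ Dn (d / 8) X Z x := VIR_Dn _ _ _ _
  have hM0 : 0 ≤ z ^ 2 * (M : ℝ) := by positivity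
  have hzN1 : 0 ≤ z * N1 := mul_nonneg hz hN10
  have hzN2 : 0 ≤ z * N2 := mul_nonneg hz hN20
  obtain ⟨Y, hY⟩ : ∃ Y : ℝ, Y = Loc d z X Z x + z * N2 := ⟨_, rfl⟩
  have hL : Loc d z X Z x = z ^ 2 * M + Dn (d / 8) X Z x + Rem (d / 8) x + z * N1 := by
    rw [hN1]
    rfl
  rw [← hN2, ← hY]
  rw [hL] at hY
  have r4 : z * N2 ≤ Y := by linarith
  have r6 : Rem (d / 8) x ≤ Y := by linarith
  have r7 : z ^ 2 * M + Dn (d / 8) X Z x ≤ Y := by linarith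
  have r8 : ∑ i, cnt X (3 / 2 * d) x i ^ 2 ≤ C2 * Y :=
    q2.trans (mul_le_mul_of_nonneg_left r7 hC2.le)
  have r9 : ∑ i, e i ^ 2 ≤ C3 * Y := q3.trans (mul_le_mul_of_nonneg_left r7 hC3.le)
  have b1 := VIR_b1 h4 hd hA hS hg hH hD
  have b2 := VIR_b2 hd hA hS Z hout hA1 x he
  have b3 := VIR_b3 hz hd hA hS hZ0 hDat.le hout hA1 hD
  rw [← hN2] at b3
  have m1 := mul_le_mul_of_nonneg_left r6 hA0
  have m2 := mul_le_mul_of_nonneg_left r8 (by positivity : 0 ≤ A * (16 / d))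
  have m3 := mul_le_mul_of_nonneg_left (add_le_add r9 r8) (by positivity : 0 ≤ 3 / 2 * A)
  have m4 := mul_le_mul_of_nonneg_left r4 (by positivity : 0 ≤ 3 * A)
  rw [VIR_id hd hS Z hout x]
  have e1 : P * Y = 1 / 2 * (A * Y + A * (16 / d) * (C2 * Y) +
      3 / 2 * A * (C3 * Y + C2 * Y) + 3 * A * Y) := by
    rw [hP]
    ring
  rw [e1]
  linarith

end Pool.Agent.Helper39.HV
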